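import Mathlib

namespace Pool.Agent.Results.MP_75d27e_nt.NotInjective

open Finset

/-- An `m`-product sequence: a finite non-decreasing sequence of natural numbers whose product is an
`m`-th power and in which no integer occurs more than `m - 1` times. -/
def IsProductSequence (m : ℕ) (l : List ℕ) : Prop :=
  l.Pairwise (· ≤ ·) ∧ (∃ R : ℕ, l.prod = R ^ m) ∧ ∀ a : ℕ, l.count a ≤ m - 1

/-- Some `m`-product sequence has first term `n` and last term `s`. -/
def Joins (m n s : ℕ) : Prop :=
  ∃ l : List ℕ, IsProductSequence m l ∧ l.head? = some n ∧ l.getLast? = some s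

/-- `g m n`: the least last term of an `m`-product sequence with first term `n`. -/
noncomputable def g (m n : ℕ) : ℕ := sInf {s : ℕ | Joins m n s}

lemma joins_of_multiset {m n s : ℕ} (M : Multiset ℕ) (hn : n ∈ M)
    (hM : ∀ a ∈ M, n ≤ a ∧ a ≤ s) (hR : ∃ R : ℕ, M.prod = R ^ m)
    (hc : ∀ a, M.count a ≤ m - 1) : ∃ s', s' ≤ s ∧ Joins m n s' := by
  classical
  set l := M.sort (· ≤ ·) with hl
  have hlM : (l : Multiset ℕ) = M := Multiset.sort_eq M (· ≤ ·)
  have hsorted : l.Pairwise (· ≤ ·) := Multiset.pairwise_sort M (· ≤ ·)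
  have hmem : ∀ a, a ∈ l ↔ a ∈ M := by
    intro a; rw [← hlM]; rfl
  have hne : l ≠ [] := by
    intro h
    have := (hmem n).2 hn
    rw [h] at this
    simp at this
  refine ⟨l.getLast hne, (hM _ ((hmem _).1 (List.getLast_mem hne))).2, l, ⟨hsorted, ?_, ?_⟩, ?_, ?_⟩
  · obtain ⟨R, hR⟩ := hR
    refine ⟨R, ?_⟩
    rw [← hR, ← hlM]
    simp
  · intro a
    have := hc a
    rw [← hlM] at this
    simpa using this
  · obtain ⟨x, t, hxt⟩ := List.exists_cons_of_ne_nil hne
    have hx : x ∈ M := (hmem x).1 (by rw [hxt]; simp)
    have h1 := (hM x hx).1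
    have h2 : x ≤ n := by
      have hnl := (hmem n).2 hn
      rw [hxt] at hnl hsorted
      rcases List.mem_cons.1 hnl with h | h
      · exact h.ge
      · exact (List.pairwise_cons.1 hsorted).1 n h
    have : x = n := le_antisymm h2 h1
    rw [hxt, this]; rfl
  · exact List.getLast?_eq_some_getLast hne

lemma exists_pow {m N : ℕ} (hN : N ≠ 0)
    (h : ∀ q, q.Prime → m ∣ N.factorization q) : ∃ R : ℕ, N = R ^ m := by
  refine ⟨(N.factorization.mapRange (fun x => x / m) (Nat.zero_div m)).prod (fun a b => a ^ b), ?_⟩
  set f := N.factorization.mapRange (fun x => x / m) (Nat.zero_div m) with hf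
  have hfp : ∀ q ∈ f.support, q.Prime := by
    intro q hq
    by_contra hq'
    rw [Finsupp.mem_support_iff, hf, Finsupp.mapRange_apply,
      Nat.factorization_eq_zero_of_not_prime _ hq'] at hq
    simp at hq
  apply Nat.eq_of_factorization_eq hN
  · apply pow_ne_zero
    rw [Finsupp.prod, Finset.prod_ne_zero_iff]
    intro q hq
    exact pow_ne_zero _ (hfp q hq).ne_zero
  · intro q
    rw [Nat.factorization_pow, Nat.prod_pow_factorization_eq_self hfp]
    by_cases hq : q.Prime
    · simp only [Finsupp.smul_apply, smul_eq_mul, hf, Finsupp.mapRange_apply]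
      exact (Nat.mul_div_cancel' (h q hq)).symm
    · simp only [Finsupp.smul_apply, smul_eq_mul, hf, Finsupp.mapRange_apply]
      rw [Nat.factorization_eq_zero_of_not_prime _ hq]
      simp


lemma joins_self_pow {m d : ℕ} (hd : d ∣ m) (h1 : 1 < d) (hm : d < m) :
    Joins m (2 ^ d) (2 ^ d) := by
  obtain ⟨k, hk⟩ := hd
  have hk0 : 0 < k := by
    rcases Nat.eq_zero_or_pos k with h | h
    · rw [h] at hk; omega
    · exact h
  have hkm : k ≤ m - 1 := by
    have : k < m := by rw [hk]; nlinarith
    omega
  refine ⟨List.replicate k (2 ^ d), ⟨?_, ⟨2, ?_⟩, ?_⟩, ?_, ?_⟩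
  · exact List.pairwise_replicate.2 (Or.inr le_rfl)
  · rw [List.prod_replicate, ← pow_mul, ← hk]
  · intro a
    exact (List.count_le_length).trans (by simpa using hkm)
  · rw [List.head?_replicate]; simp [hk0.ne']
  · rw [List.getLast?_replicate]; simp [hk0.ne']

lemma joins_exists {m : ℕ} (hm : 3 ≤ m) (n : ℕ) : ∃ s, Joins m n s := by
  rcases Nat.eq_zero_or_pos n with h | h
  · subst h
    refine ⟨0, [0], ⟨by simp, ⟨0, ?_⟩, ?_⟩, rfl, rfl⟩
    · simp only [List.prod_cons, List.prod_nil, mul_one]
      exact (zero_pow (by omega)).symm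
    · intro a
      exact (List.count_le_length).trans (by simp; omega)
  · have hle : n ≤ 2 ^ m * n ^ (m - 1) := by
      have h1 : n ^ 1 ≤ n ^ (m - 1) := Nat.pow_le_pow_right h (by omega)
      have h2 : 1 ≤ 2 ^ m := Nat.one_le_two_pow
      calc n = 1 * n ^ 1 := by ring
        _ ≤ 2 ^ m * n ^ (m - 1) := Nat.mul_le_mul h2 h1
    refine ⟨2 ^ m * n ^ (m - 1), [n, 2 ^ m * n ^ (m - 1)], ⟨?_, ⟨2 * n, ?_⟩, ?_⟩, rfl, rfl⟩
    · simpa using hle
    · have : m = (m - 1) + 1 := by omega
      simp only [List.prod_cons, List.prod_nil, mul_one]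
      rw [mul_pow]
      conv_rhs => rw [this]
      rw [pow_succ n (m - 1)]
      rw [← this]
      ring
    · intro a
      exact (List.count_le_length).trans (by simp; omega)

lemma g_joins {m : ℕ} (hm : 3 ≤ m) (n : ℕ) : Joins m n (g m n) :=
  Nat.sInf_mem (s := {s : ℕ | Joins m n s}) (joins_exists hm n)

lemma g_le {m n s : ℕ} (h : Joins m n s) : g m n ≤ s := Nat.sInf_le h

lemma list_fact {q : ℕ} (hq : q.Prime) : ∀ l : List ℕ, (∀ a ∈ l, 0 < a ∧ a ≤ q) →
    l.prod ≠ 0 ∧ l.prod.factorization q = l.count q := by
  intro l
  induction l with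
  | nil => intro _; simp
  | cons a t ih =>
    intro h
    obtain ⟨h1, h2⟩ := ih (fun b hb => h b (List.mem_cons_of_mem _ hb))
    obtain ⟨ha0, haq⟩ := h a (by simp)
    refine ⟨by rw [List.prod_cons]; exact mul_ne_zero ha0.ne' h1, ?_⟩
    rw [List.prod_cons, Nat.factorization_mul ha0.ne' h1, Finsupp.add_apply, h2, List.count_cons]
    by_cases haq' : a = q
    · subst haq'
      simp [hq.factorization_self, add_comm]
    · have : a.factorization q = 0 := Nat.factorization_eq_zero_of_lt (lt_of_le_of_ne haq haq')
      simp [this, haq']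

lemma g_not_prime {m : ℕ} (hm : 3 ≤ m) (n : ℕ) : ¬ (g m n).Prime := by
  intro hp
  obtain ⟨l, ⟨hs, ⟨R, hR⟩, hc⟩, hh, hl⟩ := g_joins hm n
  have hn0 : n ≠ 0 := by
    rintro rfl
    have : g m 0 ≤ 0 := g_le ⟨[0], ⟨by simp, ⟨0, by
      simp only [List.prod_cons, List.prod_nil, mul_one]
      exact (zero_pow (by omega)).symm⟩, fun a =>
      (List.count_le_length).trans (by simp; omega)⟩, rfl, rfl⟩
    have := hp.pos
    omega
  have hne : l ≠ [] := by rintro rfl; simp at hh
  have hlast : l.getLast hne = g m n := by
    rw [List.getLast?_eq_some_getLast hne] at hl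
    exact Option.some.inj hl
  have hmem : ∀ a ∈ l, 0 < a ∧ a ≤ g m n := by
    intro a ha
    constructor
    · obtain ⟨x, t, hxt⟩ := List.exists_cons_of_ne_nil hne
      rw [hxt] at hh hs ha
      have hx : x = n := by simpa using hh
      rcases List.mem_cons.1 ha with h | h
      · rw [h, hx]; omega
      · have := (List.pairwise_cons.1 hs).1 a h
        omega
    · rw [← hlast]
      have hdl := List.dropLast_append_getLast hne
      rw [← hdl] at ha hs
      rcases List.mem_append.1 ha with h | h
      · exact (List.pairwise_append.1 hs).2.2 a h _ (by simp)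
      · simp at h; exact h.le
  obtain ⟨h1, h2⟩ := list_fact hp l hmem
  have hpos : 0 < l.count (g m n) := by
    rw [List.count_pos_iff, ← hlast]
    exact List.getLast_mem hne
  have hlt := hc (g m n)
  rw [hR, Nat.factorization_pow, Finsupp.smul_apply, smul_eq_mul] at h2
  have : m ∣ l.count (g m n) := ⟨_, h2.symm⟩
  have := Nat.le_of_dvd hpos this
  omega


/-- The key count: fewer than `π(2 ^ d)` starting points have no product sequence within `[0, 2 ^ d]`. -/
lemma key {m d : ℕ} (hm : 3 ≤ m) (hd : d ∣ m) (h1 : 1 < d) (hdm : d < m) (B : Finset ℕ)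
    (hB : ∀ n ∈ B, 0 < n ∧ n < 2 ^ d ∧ ∀ s', s' ≤ 2 ^ d → ¬ Joins m n s') :
    B.card < ((Finset.range (2 ^ d + 1)).filter Nat.Prime).card := by
  classical
  have : NeZero m := ⟨by omega⟩
  set s : ℕ := 2 ^ d with hs
  set P := (Finset.range (s + 1)).filter Nat.Prime with hP
  obtain ⟨k, hk⟩ := hd
  have hk1 : 1 < k := by
    by_contra hk1
    have : k ≤ 1 := by omega
    have : d * k ≤ d * 1 := Nat.mul_le_mul_left d this
    omega
  have hsfac : ∀ q, q.Prime → s.factorization q = if q = 2 then d else 0 := by
    intro q hq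
    rw [hs, Nat.factorization_pow, Nat.Prime.factorization Nat.prime_two]
    by_cases h : q = 2
    · subst h; simp
    · simp [h]
  have hmod : ∀ a : ℕ, ((a : ZMod m) = 0 ↔ m ∣ a) := fun a => ZMod.natCast_eq_zero_iff a m
  let φ : ((B → ZMod m) × Fin k) → (P → ZMod m) := fun ec q =>
    (∑ b : B, ec.1 b * (((b : ℕ).factorization q : ℕ) : ZMod m)) +
      ((ec.2 : ℕ) : ZMod m) * ((s.factorization q : ℕ) : ZMod m)
  have hinj : Function.Injective φ := by
    rintro ⟨e, c⟩ ⟨e', c'⟩ hee
    have hq : ∀ q : P, φ (e, c) q = φ (e', c') q := fun q => congrFun hee q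
    by_cases heq : e = e'
    · subst heq
      have h2 : (2 : ℕ) ∈ P := by
        rw [hP, Finset.mem_filter, Finset.mem_range]
        refine ⟨?_, Nat.prime_two⟩
        have : 2 ^ 1 ≤ 2 ^ d := Nat.pow_le_pow_right (by norm_num) (by omega)
        omega
      have h := hq ⟨2, h2⟩
      simp only [φ, add_right_inj] at h
      rw [hsfac 2 Nat.prime_two, if_pos rfl, ← Nat.cast_mul, ← Nat.cast_mul,
        ZMod.natCast_eq_natCast_iff'] at h
      have hlt : ∀ x : Fin k, (x : ℕ) * d < m := by
        intro x
        have := x.2
        rw [hk, mul_comm]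
        exact Nat.mul_lt_mul_of_pos_left this (by omega)
      rw [Nat.mod_eq_of_lt (hlt c), Nat.mod_eq_of_lt (hlt c')] at h
      have : (c : ℕ) = c' := Nat.eq_of_mul_eq_mul_right (by omega) h
      rw [Fin.ext this]
    · exfalso
      -- coefficient function
      let f : ℕ → ZMod m := fun a => if ha : a ∈ B then e ⟨a, ha⟩ - e' ⟨a, ha⟩ else 0
      let h : ℕ → ZMod m := fun a => f a + if a = s then ((c : ℕ) : ZMod m) - ((c' : ℕ) : ZMod m) else 0
      have hex : (B.filter (fun a => f a ≠ 0)).Nonempty := by
        by_contra hno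
        rw [Finset.not_nonempty_iff_eq_empty, Finset.filter_eq_empty_iff] at hno
        apply heq
        funext b
        have := hno b.2
        simp only [f, b.2, dif_pos, not_not] at this
        exact sub_eq_zero.1 this
      set n := (B.filter (fun a => f a ≠ 0)).min' hex with hn
      have hnmem := Finset.min'_mem _ hex
      rw [← hn, Finset.mem_filter] at hnmem
      obtain ⟨hnB, hfn⟩ := hnmem
      have hmin : ∀ a, a < n → f a = 0 := by
        intro a ha
        by_contra hfa
        have haB : a ∈ B := by
          by_contra haB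
          exact hfa (by simp [f, haB])
        have := Finset.min'_le (B.filter (fun a => f a ≠ 0)) a (Finset.mem_filter.2 ⟨haB, hfa⟩)
        rw [← hn] at this
        omega
      obtain ⟨hn0, hns, hnj⟩ := hB n hnB
      have hhn : h n ≠ 0 := by
        simp only [h]
        rw [if_neg (by omega), add_zero]
        exact hfn
      have hhmin : ∀ a, a < n → h a = 0 := by
        intro a ha
        simp only [h]
        rw [hmin a ha, if_neg (by omega), add_zero]
      let M : Multiset ℕ := ∑ a ∈ Finset.Icc n s, (h a).val • ({a} : Multiset ℕ)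
      have hcount : ∀ a, M.count a = if a ∈ Finset.Icc n s then (h a).val else 0 := by
        intro a
        simp only [M, Multiset.count_sum', Multiset.count_nsmul, Multiset.count_singleton]
        rw [Finset.sum_congr rfl (g := fun x => if a = x then (h x).val else 0)]
        · rw [Finset.sum_ite_eq]
        · intro x _
          split_ifs <;> simp
      have hprod : M.prod = ∏ a ∈ Finset.Icc n s, a ^ (h a).val := by
        simp only [M]
        rw [Multiset.prod_sum]
        refine Finset.prod_congr rfl fun a _ => ?_
        rw [Multiset.prod_nsmul, Multiset.prod_singleton]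
      have hsum0 : ∀ q, q.Prime → ∑ a ∈ Finset.Icc n s,
          h a * ((a.factorization q : ℕ) : ZMod m) = 0 := by
        intro q hqp
        by_cases hqs : q ∈ P
        · have h3 := hq ⟨q, hqs⟩
          simp only [φ] at h3
          have h4 : ∑ a ∈ Finset.Icc n s, h a * ((a.factorization q : ℕ) : ZMod m)
              = ∑ a ∈ Finset.range (s + 1), h a * ((a.factorization q : ℕ) : ZMod m) := by
            refine Finset.sum_subset ?_ ?_
            · intro a ha
              rw [Finset.mem_Icc] at ha
              rw [Finset.mem_range]; omega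
            · intro a ha ha'
              rw [Finset.mem_range] at ha
              rw [Finset.mem_Icc] at ha'
              rw [hhmin a (by omega), zero_mul]
          have h5 : ∑ a ∈ Finset.range (s + 1), f a * ((a.factorization q : ℕ) : ZMod m)
              = ∑ b : B, (e b - e' b) * (((b : ℕ).factorization q : ℕ) : ZMod m) := by
            have hsub : B ⊆ Finset.range (s + 1) := by
              intro a ha
              have := (hB a ha).2.1
              rw [Finset.mem_range]; omega
            rw [← Finset.sum_subset hsub]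
            · rw [← Finset.sum_coe_sort B]
              refine Finset.sum_congr rfl fun b _ => ?_
              simp [f, b.2]
            · intro a _ ha
              simp [f, ha]
          rw [h4]
          have h6 : ∑ a ∈ Finset.range (s + 1), h a * ((a.factorization q : ℕ) : ZMod m)
              = ∑ a ∈ Finset.range (s + 1), f a * ((a.factorization q : ℕ) : ZMod m)
                + (((c : ℕ) : ZMod m) - ((c' : ℕ) : ZMod m)) * ((s.factorization q : ℕ) : ZMod m) := by
            simp only [h, add_mul, Finset.sum_add_distrib]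
            congr 1
            rw [Finset.sum_eq_single s]
            · simp
            · intro a _ ha
              simp [ha]
            · intro hns'
              exact absurd (Finset.mem_range.2 (by omega)) hns'
          rw [h6, h5]
          simp only [sub_mul, Finset.sum_sub_distrib]
          linear_combination h3
        · refine Finset.sum_eq_zero fun a ha => ?_
          rw [Finset.mem_Icc] at ha
          have : q ∉ Finset.range (s + 1) := fun hh => hqs (Finset.mem_filter.2 ⟨hh, hqp⟩)
          rw [Finset.mem_range] at this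
          rw [Nat.factorization_eq_zero_of_lt (by omega)]
          simp
      have hMne : M.prod ≠ 0 := by
        rw [hprod, Finset.prod_ne_zero_iff]
        intro a ha
        rw [Finset.mem_Icc] at ha
        exact pow_ne_zero _ (by omega)
      have hpow : ∃ R : ℕ, M.prod = R ^ m := by
        apply exists_pow hMne
        intro q hqp
        rw [← hmod, hprod, Nat.factorization_prod (fun a ha => by
          rw [Finset.mem_Icc] at ha
          exact pow_ne_zero _ (by omega))]
        rw [Finset.sum_apply']
        simp only [Nat.factorization_pow, Finsupp.smul_apply, smul_eq_mul, Nat.cast_sum,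
          Nat.cast_mul, ZMod.natCast_val, ZMod.cast_id', id_eq]
        exact hsum0 q hqp
      obtain ⟨s', hs', hj⟩ := joins_of_multiset (m := m) (n := n) (s := s) M
        (by
          rw [← Multiset.count_pos, hcount, if_pos (Finset.mem_Icc.2 ⟨le_rfl, by omega⟩)]
          exact Nat.pos_of_ne_zero (by rwa [Ne, ZMod.val_eq_zero]))
        (by
          intro a ha
          rw [← Multiset.count_pos, hcount] at ha
          by_cases hh : a ∈ Finset.Icc n s
          · exact Finset.mem_Icc.1 hh
          · rw [if_neg hh] at ha; omega)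
        hpow
        (by
          intro a
          rw [hcount]
          split_ifs
          · have := ZMod.val_lt (h a); omega
          · omega)
      exact hnj s' hs' hj
  have hcard := Fintype.card_le_of_injective φ hinj
  rw [Fintype.card_prod, Fintype.card_fun, Fintype.card_fun, Fintype.card_fin, ZMod.card,
    Fintype.card_coe, Fintype.card_coe] at hcard
  by_contra hlt
  have hle : P.card ≤ B.card := not_lt.1 hlt
  have h1' : m ^ P.card ≤ m ^ B.card := Nat.pow_le_pow_right (by omega) hle
  have h2' : 0 < m ^ B.card := Nat.pow_pos (by omega)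
  nlinarith


/-- **Main theorem.**  For every composite `m` the map `g m` is not injective. More precisely, for
every proper divisor `d > 1` of `m` two different starting points `n₁ < n₂ ≤ 2 ^ d` have the same value
`g m n₁ = g m n₂ ≤ 2 ^ d`. -/
theorem result (m : ℕ) (hm : 2 ≤ m) (hc : ¬ m.Prime) :
    (∀ n, Joins m n (g m n)) ∧ ¬ Function.Injective (g m) ∧
    ∀ d, d ∣ m → 1 < d → d < m →
      ∃ n₁ n₂ : ℕ, n₁ < n₂ ∧ n₂ ≤ 2 ^ d ∧ g m n₁ = g m n₂ ∧ g m n₂ ≤ 2 ^ d := by
  classical
  have hm3 : 3 ≤ m := by
    rcases Nat.lt_or_ge m 3 with h | h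
    · exfalso
      have : m = 2 := by omega
      rw [this] at hc
      exact hc Nat.prime_two
    · exact h
  have main : ∀ d, d ∣ m → 1 < d → d < m →
      ∃ n₁ n₂ : ℕ, n₁ < n₂ ∧ n₂ ≤ 2 ^ d ∧ g m n₁ = g m n₂ ∧ g m n₂ ≤ 2 ^ d := by
    intro d hd h1 hdm
    by_contra hno
    push Not at hno
    have hinj : Set.InjOn (g m) ((Finset.range (2 ^ d + 1)).filter (fun n => g m n ≤ 2 ^ d) : Finset ℕ) := by
      intro a ha b hb hab
      rw [Finset.mem_coe, Finset.mem_filter, Finset.mem_range] at ha hb
      rcases lt_trichotomy a b with h | h | h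
      · exact absurd (hno a b h (by omega) hab) (by omega)
      · exact h
      · exact absurd (hno b a h (by omega) hab.symm) (by omega)
    have hmaps : ((Finset.range (2 ^ d + 1)).filter (fun n => g m n ≤ 2 ^ d)).image (g m) ⊆
        (Finset.range (2 ^ d + 1)).filter (fun n => ¬ n.Prime) := by
      intro x hx
      rw [Finset.mem_image] at hx
      obtain ⟨n, hn, rfl⟩ := hx
      rw [Finset.mem_filter] at hn
      rw [Finset.mem_filter, Finset.mem_range]
      exact ⟨by omega, g_not_prime hm3 n⟩
    have hcard1 := Finset.card_le_card hmaps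
    rw [Finset.card_image_of_injOn hinj] at hcard1
    have hcard2 := Finset.card_filter_add_card_filter_not (s := Finset.range (2 ^ d + 1))
      (fun n => g m n ≤ 2 ^ d)
    have hcard3 := Finset.card_filter_add_card_filter_not (s := Finset.range (2 ^ d + 1))
      (fun n => n.Prime)
    have hkey := key hm3 hd h1 hdm
      ((Finset.range (2 ^ d + 1)).filter (fun n => ¬ g m n ≤ 2 ^ d)) (by
        intro n hn
        rw [Finset.mem_filter, Finset.mem_range] at hn
        obtain ⟨hn1, hn2⟩ := hn
        have hnz : n ≠ 0 := by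
          rintro rfl
          apply hn2
          have : g m 0 ≤ 0 := g_le ⟨[0], ⟨by simp, ⟨0, by
            simp only [List.prod_cons, List.prod_nil, mul_one]
            exact (zero_pow (by omega)).symm⟩, fun a =>
            (List.count_le_length).trans (by simp; omega)⟩, rfl, rfl⟩
          exact this.trans (Nat.zero_le _)
        have hns : n ≠ 2 ^ d := by
          rintro rfl
          exact hn2 (g_le (joins_self_pow hd h1 hdm))
        exact ⟨by omega, by omega, fun s' hs' hj => hn2 ((g_le hj).trans hs')⟩)
    have hP : ((Finset.range (2 ^ d + 1)).filter Nat.Prime).card =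
        ((Finset.range (2 ^ d + 1)).filter (fun n => n.Prime)).card := by
      congr
    rw [hP] at hkey
    omega
  refine ⟨g_joins hm3, ?_, main⟩
  intro hinj
  have hne1 : m ≠ 1 := by omega
  have hdvd := Nat.minFac_dvd m
  have hprime := Nat.minFac_prime hne1
  have hlt : m.minFac < m := by
    rcases lt_or_eq_of_le (Nat.minFac_le (by omega : 0 < m)) with h | h
    · exact h
    · rw [h] at hprime; exact absurd hprime hc
  obtain ⟨a, b, hab, -, h, -⟩ := main m.minFac hdvd hprime.one_lt hlt
  exact hab.ne (hinj h)

end Pool.Agent.Results.MP_75d27e_nt.NotInjective
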